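import Pool.Agent.N998.FP.Final

/-!
# Algebraic cycles on Fermat varieties over finite fields: the primes of odd order

Let `m` be prime to the prime `p`. The cohomology of even degree of the Fermat varieties of degree
`m` over an algebraic closure of the field with `p` elements is spanned by algebraic classes and by
the lines of the characters of degree `m`; the classes fixed by a power of Frobenius are spanned by
the algebraic ones and by the lines of the *Tate characters* (Weil, Stickelberger). The lines of the
pairs `{a, -a}`, of unions of characters with algebraic lines, of the characters of surfaces (Tate)
and of the standard characters (Aoki) are algebraic; removing a pair preserves algebraicity, and the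
degree may be raised by pull back and push forward (Shioda, Katsura).

The further input are the *lifted characters*: the lines of Hodge characters of degree `m`, prime to
`p`, which are algebraic in characteristic zero, as the cycles can be specialised.

The theorem: let `p` have odd order modulo `m`. If all Hodge characters of degree `m` are `Known` in
characteristic zero, then all Tate characters of degree `m` in characteristic `p`, with any number of
entries, are generated by surfaces, standard characters and lifted characters. So for every degree `m`
and every prime `p` of odd order modulo `m` the Hodge conjecture for the Fermat varieties of degree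
`m` (by the cycles of `FourBase`) implies the Tate conjecture for them in characteristic `p`. By
`MP_e12fcd_ag.FermatThreePrimes` the hypothesis holds, and the conclusion is unconditional, if every
prime factor of `m` congruent to 1 modulo 4 sees only squares (`MutualSquares`), or if `m` has at most
three odd prime factors (two if `4` divides `m`) and those congruent to 1 modulo 4 see only squares or
are 5, 13 or 17 (`ThreePrimes`). The theorem extends to all varieties dominated by products of Fermat
varieties; as their motives are of abelian type the cycle class maps
`CH_i(X) ⊗ ℚ_ℓ → H_{2i}(X, ℚ_ℓ(i))^G` are then bijective.

The proof. By the parity theorem (`MP_0d42ed_ag.FermatParity`) it is enough that a Tate character gets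
even parities, for the types of residues modulo `m` (sets of prime divisors of the order), after
adding Hodge characters. If `f`, the order of `p` modulo `m`, is odd, the union of the `p ^ j s`,
`j < f`, is a Hodge character with the same parities as `s`.
-/

namespace Pool.Agent.Results.MP_3af9db_ag.FermatOddOrder

open Pool.Agent.H916T Pool.Agent.N993 Pool.Agent.N998.FP

theorem result (p m : ℕ) (hp : p.Prime) (hm : 0 < m) (hpm : p.Coprime m)
    (ho : Odd (orderOf (p : ZMod m))) (h : Known m ∨ MutualSquares m ∨ ThreePrimes m)
    (s : Multiset (ZMod m)) (hs : IsTate p m s) (hne : s ≠ 0) :
    ∃ N : ℕ, 0 < N ∧ p.Coprime N ∧
      Generated (N * m) (Base p (N * m)) (s.map fun a => ((N * a.val : ℕ) : ZMod (N * m))) := by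
  have hz : NeZero m := ⟨hm.ne'⟩
  have hK : Known m := h.elim (fun h => h)
    fun h => known_of hm (h.elim Or.inl fun h => Or.inr (Or.inl h))
  obtain ⟨N, hN, hpN, H⟩ := conc_of_corr hp hm hpm hK (corr_of_odd hpm ho) s hs hne
  exact ⟨N, hN, hpN, H (N * m) rfl⟩

end Pool.Agent.Results.MP_3af9db_ag.FermatOddOrder
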