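import Pool.Agent.N876.GB3.Proof

/-!
# Cycle classes on products of arbitrary varieties with cyclic coverings branched along hyperplanes

Let `κ` be a finite field with `q = c ^ f` elements, and `𝒱` a class of smooth projective varieties over
`κ`, closed under products, with Chow groups `A` with rational coefficients and a Weil cohomology theory
`H` (framework of helper492 and helper484: `TheoryData`, `IsChow`, `IsWeil`). Let `X_i` be varieties in
`𝒱`, of any dimensions `n_i`, which are models of cyclic coverings

  `w ^ N_i = ∏ l_{i,k} (x) ^ a_{i,k}`

of projective spaces, branched along hyperplanes `l_{i,k} = 0` over `κ`, with exponents prime to `N_i`,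
where `N_i` divides `q - 1` (`IsModel`, see the definitions: the cohomology is generated by the
classes of cycles and a part `T`, pure of weight `n_i`, without invariants under the covering
group, for which the trace formula holds). Let `N` be a common multiple of the `N_i`, and `λ` an
integer such that `IsSmall N λ` holds: for every nonempty finite set `I` of indices and all `j_i` not
divisible by `N_i` (`i ∈ I`) there is a `u` prime to `N` with
`∑_{i ∈ I} weight X_i (u j_i) + λ / 2 < ∑_{i ∈ I} (n_i / 2 + 1)`; here `weight X j` is the mean over the
orbit `j, c j, …, c ^ (f - 1) j` of the sum of the fractional parts of `j a_k / N_i`.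

Let `U` be **any** variety over `κ` (open, singular, reducible), `e = dim U`, and `Z` a variety in `𝒱` (for
example a point). Let `M = ⨁ M^c` with `M^c = H_{2e-c}(Ū, ℚ_ℓ(e)) ⊗ K`, the étale homology, with the
geometric Frobenius `μ` (`Homology`; for `U` smooth of pure dimension `e` this is the cohomology
`H^c(Ū)`). For `X` in `𝒱` let `R(X) = H(X) ⊗ M`, with the Frobenius `Φ = F_X ⊗ μ`. By the Künneth formula
`H_{2i}(X̄ × Ū, ℚ_ℓ(i)) ⊗ K` is, with `n = dim X + e - i`, the sum of the `H^a(X) ⊗ M^c` with `a + c = 2 n`
(`degreePart`), and the eigenvalue `1` of `Frob_q` on it is the eigenvalue `q ^ n` of `Φ`. Let `T` be the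
theory `T^n(X) = CH_i(X × U) ⊗ K`, `i = dim X + e - n`, with the Frobenius `φ` of `U`, and `reg` the
cycle class map (on `T` act the correspondences between the varieties in `𝒱`, the cycle class map
commutes with this, and the Frobenius of `X × U` is `q ^ n` on `T^n(X)`: `IsTheory`, `HasFrobenius`,
`IsRegulator`).

Let `χ` be a polynomial with rational coefficients, `χ(0) ≠ 0`, with `χ(μ) = 0` (there are such polynomials,
since the eigenvalues of `μ` are algebraic). We assume that the products `b` of the eigenvalues of
Frobenius on `H(Z)` and the complex roots of `χ` are of the form `|b| ^ 2 = q ^ j` (theorem of Deligne) and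
that
* either `λ = 0` and the cyclotomic polynomial of order `N` is irreducible over the field generated by
  the numbers `b` (for given `Z` and `U` this is true for all `N` prime to the discriminant of this field),
* or `Z × U` is of level `≤ λ`: the numbers `q ^ λ b / b̄` are algebraic integers. This is true if
  `dim Z + dim U ≤ λ`.

**Theorem.** Let `V` be the product of `Z` and of finitely many of the `X_i` (pairwise different), and
`d = dim V - dim Z`. For every integer `i`:
* `cl_i` is surjective for `V × U` if and only if `cl_{i-l}` is surjective for `Z × U` for `0 ≤ l ≤ d`.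
* `SS_i(V × U)` is true if and only if `SS_{i-l}(Z × U)` is true for `0 ≤ l ≤ d`. Nothing else is assumed.
* Assume that homologically trivial self-correspondences of degree zero of the products `V` are
  nilpotent (known for example if `Z` is a point and the `X_i` are curves or have `n_i + 2` branch
  hyperplanes in general position) and that `χ (φ) = 0` on the Chow groups of the `X × U` (for example if
  the motive of `U` is finite-dimensional). Then `cl_i` is injective for `V × U` if and only if the
  `cl_{i-l}` are injective for `Z × U`, `0 ≤ l ≤ d`, and **`cl_i` is an isomorphism for `V × U` if and only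
  if the `cl_{i-l}` are isomorphisms for `Z × U`, `0 ≤ l ≤ d`**. So the answer to Q1 for `V × U` is the same
  as for `Z × U`; if `Z` is a point, as for `U`.

For example, under these assumptions all maps `cl_i` for `V × U` are isomorphisms if `Z` is a point and `U` is a curve (possibly
open or singular).

Examples. (a) Let `X_i` be curves `y ^ N_i = ∏ (x - x_{i,k})` with `N_i` factors, of genus
`(N_i - 1) (N_i - 2) / 2`, for different prime numbers `N_i` dividing `c - 1`. Then `weight X_i j` is the
residue of `j` modulo `N_i`, and `IsSmall N 0` holds for the product `N` of the `N_i` (take `u` with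
`u j_i = 1` modulo `N_i`). (b) Let `X` be the variety `w ^ N = l_1 ⋯ l_N` of dimension `n = N - 2`, with
`N` hyperplanes in general position, for a prime number `N` dividing `c - 1` (the resolutions are
Calabi-Yau varieties). The weight for `u j = 1` is `1`, so `IsSmall N λ` holds for all `λ < n`: the
theorem applies to **all
varieties `U` of dimension smaller than `dim X`**.

The proof: by the theorem of Stickelberger on Gauss sums and the product formula no product of
eigenvalues of the Frobenius on the parts `T` of several `X_i` and of a number `b` is a power of `q`. So
the intersection pairing on the algebraic classes of `X_i` is not degenerate; let `D j`, `E j` be dual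
systems of cycles on `X_i`, `p = ∑ E j × D j` the projector on `X_i × V'`, `P` a polynomial with
`P (F) H(X_i × V') ⊆ ∑ D j × H(V')`, and `Q (x)` the polynomial with the roots `q ^ n / ρ`, where `χ (ρ) = 0`.
Then `(1 - p) P (F)` is zero on `R(X_i × V')` and nilpotent on `T(X_i × V')`; a power of `Q (F)` kills every
generalized eigenvector of `Φ` for `q ^ n`, and `P` and `Q` are prime to each other, so `1 - p` kills
these vectors, and `T^n(X_i × V')`.

helper876; built on the library of the starting files (estimates of sums over hyperplane
arrangements by Gauss sums: helper528 and helpers 800, 883, 135, 563, 271, 540, 400, 999, 782, 605,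
346; traces on eigenspaces: helper117; correspondences, nilpotence and the Kunneth formula: helpers
484, 492, 550; the idea to work relative to a scheme: helper156).
-/

set_option autoImplicit false

open Polynomial CategoryTheory AlgebraicGeometry

namespace Pool.Agent.Results.MP_3af9db_ag.HyperplaneCoverings

open Pool.Agent.H914 Pool.Agent.H914.VarClass Pool.Agent.H914.VarClass.Obj Pool.Agent.W492.BB
  Pool.Agent.W484.CK Pool.Agent.N876.GB3

/-- **Cycle classes on products of arbitrary varieties with cyclic coverings branched along
hyperplanes.** -/
theorem result (c : ℕ) [Fact c.Prime] (κ : Type) [Field κ] [Fintype κ] [CharP κ c] {ι : Type}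
    (C : ι → Covering κ) (f N lam : ℕ) (hC : IsSmallSystem C c f N lam)
    {𝒱 : VarClass κ} (A : TheoryData.{0, 0, 0} 𝒱 ℚ) [IsChow A] {K : Type} [Field K]
    [IsAlgClosed K] [CharZero K] (H : WeilTheoryData.{0, 0, 0} A K) [IsWeil H] (τ : K →+* ℂ)
    (F : ∀ X : 𝒱.Obj, X ⟶ X) (X : ι → 𝒱.Obj) (Z : 𝒱.Obj) (χ : ℚ[X])
    (h : IsCoveringSystem C N lam H τ F X Z χ) (U : Homology K) (hU : IsHomology U χ)
    (T : Theory A) (hT : IsTheory T) (hF : HasFrobenius T F (Fintype.card κ))
    (reg : ∀ X, T.M X → U.R H X) (hreg : IsRegulator T reg) (L : List ι) (hL : L.Nodup) :
    Conclusions F (Fintype.card κ) χ X Z T reg L :=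
  main c κ C f N lam hC A H τ F X Z χ h U hU T hT hF reg hreg L hL

end Pool.Agent.Results.MP_3af9db_ag.HyperplaneCoverings
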