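import Pool.Agent.N90.BM.Main

/-!
# One explicit power decides the bijectivity of all cycle maps
-/

set_option autoImplicit false

open CategoryTheory MonoidalCategory

universe w v u

namespace Pool.Agent.Results.MP_3af9db_ag.OnePowerBijective

open Pool.Agent.N90.ST Pool.Agent.N90.BM

/-- **One power decides.** Let `C` be the category of the Chow motives over the field with
`q = p ^ r` elements with coefficients in the algebraically closed field `K` of characteristic zero
(or any category with the structures `Motives`), and let `T` be a motive with the unit motive as a
direct summand, for example `T = h(X)` for a smooth projective `X`. Assume that the Frobenius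
endomorphism of `H(T)` is diagonalisable, with `b` eigenvalues, the roots of the polynomials `P 0`,
..., `P n`, which are integral Weil polynomials of weight `i` with slopes in `(1 / D) ℤ`, and that
no product of eigenvalues is the product of a power of `q` and a root of unity other than `1` (this
holds over a finite extension of the finite field).

Let `N` be an exponent which is `Large`. If all cycle maps for `X ^ N` are bijective (onto the
classes invariant under the Frobenius, from the cycles modulo rational equivalence), then the same
holds for all summands of twists of powers of `T`: every linear map from `H(M)` to `H(M')` which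
commutes with the Frobenius endomorphisms is induced by exactly one morphism from `M` to `M'`. In
particular the cycle maps for all powers of `X` and for all varieties dominated by them are
bijective. -/
theorem result {K : Type w} [Field K] [IsAlgClosed K] [CharZero K] {C : Type u} [Category.{v} C]
    [Preadditive C] [Linear K C] [MonoidalCategory C] [MonoidalPreadditive C]
    [MonoidalLinear K C] [BraidedCategory C] [IsIdempotentComplete C] {p r : ℕ} [Fact p.Prime]
    (hr : 0 < r) (𝓜 : Motives K C (p ^ r)) {T : C} (hT : Nonempty (Retract (𝟙_ C) T))
    {b n D : ℕ} (hD : 0 < D) {μ : Fin b → K} (hdiag : 𝓜.Diag T μ) {P : ℕ → Polynomial ℤ}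
    (hP : WeilPolys p r D P) (hμ : Roots μ n P) (htor : TorsionFree (p ^ r) μ) {m N : ℕ}
    (hm : (factors K n P).ncard ≤ m) (hN : Large b m n D N) (hcyc : 𝓜.CycleMapsBij T N)
    {M M' : C} (hM : 𝓜.Summand T M) (hM' : 𝓜.Summand T M') : 𝓜.Bij M M' :=
  all_bij hr hT hD hdiag hP hμ htor hm hN hcyc hM hM'

end Pool.Agent.Results.MP_3af9db_ag.OnePowerBijective
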