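import Pool.Agent.N874.JM.Final
import Pool.Agent.N874.JM.Gnu
import Pool.Agent.N874.Jac.Def
import Pool.Agent.N844.QR.Ex

/-!
# Cycle classes over finite fields: a positive proportion of the fibrations in intersections of two quadrics
# of every odd dimension over the two-coverings of the line

Let `g ≥ 1`, let `k` be a finite field of characteristic larger than `2 g + 1`, `K = k(t)`, let `M` be ANY
finite Galois extension of `K` whose degree is a power of two, with arbitrary ramification, and let `C` be the
smooth projective curve with the field of functions `M` (for example any hyperelliptic curve over `k`, or any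
iterated quadratic covering of the line which is Galois).

Consider the pencils `x A - z B` of symmetric matrices of size `2 g + 2` over `k[t]` with

  `(-1)^(g+1) det (x A - z B) = m² z F(x, z)`, `F(x, 1) = f`, `m ≠ 0`,

where `f` is monic of degree `2 g + 1` in `x` over `k[t]`, with trace zero. (Up to a change of coordinates
these are all the pencils over `K` with smooth base locus and with a singular member defined over `K`.) Let
`U` be an open subset of `C` at the points of which `m` and the discriminant of `f` are not zero, and
`π : X_U → U` the family of the base loci of the pencils, a smooth variety of dimension `2 g` over the finite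
field `k`, fibred in smooth intersections of two quadrics of dimension `2 g - 1` in `P^(2g+1)`.

We order ALL the `f` by height. Theorem: for a positive proportion of them multiplication by two is
bijective on `J(M)`, where `J` is the Jacobian of `y² = f(x)`, and the 2-primary part of the Tate-Shafarevich
group of `J` over `M` is zero, even without conditions at the places over infinity. All the pencils, the
smoothness of the fibres of `π` and their points over all finite fields are treated; for every `f` there is a
pencil with `m = 1` such that the fibres contain linear subspaces of dimension `g - 1`.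

Consequence: the question has a positive answer for all the varieties `X_U` which belong to these `f`: for
all `i` and `ℓ` the map `cl_i : CH_i(X_U) ⊗ ℚ_ℓ → H^(4g-2i)(X_U, ℚ_ℓ(2g-i))^G` is an isomorphism. Indeed (this
is not formalized here), by Reid, Donagi and Bouali the motive of the generic fibre is the sum of the Tate
motives `1(-i)`, `0 ≤ i < 2 g`, and of `h^1(J)(1 - g)`; the part of `cl_i` which belongs to the Tate motives
is that of the curve `U`. The part of `h^1(J)(1 - g)` is zero on both sides for `i ≠ g` (on the left: by the
theorem on zero-cycles on surfaces over finite fields), and for `i = g` it is the map from `J(M) ⊗ ℚ_ℓ` to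
`H^1(U, V_ℓ J)^G = H^1(C, j_* V_ℓ J)^G`. By Lang and Neron `J(M)` is finite, and by Artin, Tate and Milne
(for abelian varieties: Schneider, Kato and Trihan), as the 2-primary part of the Tate-Shafarevich group is
finite, `L(J/M, s)` does not vanish at `s = 1`, so that the right side is zero too.

The theorem on the Jacobians is `MP_89bcae_ag.SurfacesOverTwoCovers` (there for the surfaces
`y ^ 2 = f(x, t)`), project JM: helper874, after project PJ of helper352 and project PM of helper874, with
parts by helpers 123, 301, 352, 507, 615, 738, 814; project JB: helper352, with 27, 106, 232, 424, 615, 655,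
based on work of helpers Y160, Y154, Y228, Y317, Y494, Y529, Y705, Y713, TH115; and, from PJ, PM and PP, 2,
50, 55, 87, 134, 160, 169, 195, 227, 262, 270, 401, 402, 415, 427, 434, 490, 498, 530, 539, 568, 572, 588,
603, 622, 655, 697, 704, 765, 769, 787. The pencils (all the matrices with the given discriminant, their
smoothness, their points, the existence for every `f` by the forms `τ(λ μ)`, `τ(λ θ μ)` on `k[t][θ]`) are in
`N844/QR/{Pen,Ex}.lean` (helper844).
-/

set_option autoImplicit false
set_option linter.all false

open Finset Matrix Polynomial Filter IsDedekindDomain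
open scoped LinearAlgebra.Projectivization

namespace Pool.Agent.Results.MP_3af9db_ag.QuadricPencilFibrations

open Pool.Agent.N874.Jac (UniquelyTwoDivisible ShaTwoTrivial)

/-! ### The polynomials `f` -/

/-- `f` is monic of degree `2 g + 1` in `x` with trace zero, separable, of height at most `N`, and minimal. -/
structure IsPoly {k : Type} [Field k] (K : Type) [Field K] [Algebra k[X] K] (g N : ℕ)
    (f : k[X][X]) : Prop where
  monic : f.Monic
  degree : f.natDegree = 2 * g + 1
  trace : f.coeff (2 * g) = 0
  height : ∀ j ≤ 2 * g, (f.coeff j).natDegree ≤ N * (2 * g + 1 - j)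
  smooth : (f.map (algebraMap k[X] K)).Separable
  minimal : ∀ P : k[X], Irreducible P →
    ¬ ∀ j < 2 * g + 1, P ^ (2 * (2 * g + 1 - j)) ∣ f.coeff j

/-- The polynomials `f` of height at most `N`. -/
def Polys (k : Type) [Field k] (K : Type) [Field K] [Algebra k[X] K] (g N : ℕ) : Set k[X][X] :=
  {f | IsPoly K g N f}

/-- Multiplication by two is bijective on `J(M)`, `J` the Jacobian of `y ^ 2 = F(x)`, and every class of
2-power order in `H ^ 1 (M, J)` which is zero over the completions of `M` at all maximal ideals of `R` is
zero. -/
def NoTwoPart (R : Type) {M : Type} [Field M] [CommRing R] [IsDedekindDomain R] [Algebra R M]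
    [IsFractionRing R M] (F : M[X]) : Prop :=
  UniquelyTwoDivisible F ∧ ShaTwoTrivial F R

/-- The `f` of height at most `N` which are irreducible over `K` and for which the Jacobian of `y ^ 2 = f`
has no 2-part over `M`. -/
def Good (R : Type) (M : Type) [Field M] [CommRing R] [IsDedekindDomain R] [Algebra R M]
    [IsFractionRing R M] (k : Type) [Field k] (K : Type) [Field K] [Algebra k[X] K]
    [Algebra k[X] M] (g N : ℕ) : Set k[X][X] :=
  {f ∈ Polys k K g N | Irreducible (f.map (algebraMap k[X] K)) ∧
    NoTwoPart R (f.map (algebraMap k[X] M))}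

/-- a positive proportion of the `f` ordered by height is good -/
def PositiveProportion (R : Type) (M : Type) [Field M] [CommRing R] [IsDedekindDomain R]
    [Algebra R M] [IsFractionRing R M] (k : Type) [Field k] (K : Type) [Field K] [Algebra k[X] K]
    [Algebra k[X] M] (g : ℕ) : Prop :=
  (∀ N : ℕ, (Polys k K g N).Finite) ∧ ∃ c : ℝ, 0 < c ∧ ∀ᶠ N : ℕ in atTop,
    0 < (Polys k K g N).ncard ∧ c * ((Polys k K g N).ncard : ℝ) ≤ ((Good R M k K g N).ncard : ℝ)

/-! ### The intersections of two quadrics -/

section pencils

variable {D : Type} [CommRing D]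

/-- the homogeneous form `F(x, z)` of degree `2 g + 1` of `f` -/
def form (g : ℕ) (f : D[X]) (x z : D) : D :=
  ∑ i ∈ range (2 * g + 2), f.coeff i * x ^ i * z ^ (2 * g + 1 - i)

/-- the matrices of size `2 g + 2` over `D` -/
abbrev Mat (g : ℕ) (D : Type) : Type := Matrix (Fin (2 * g + 2)) (Fin (2 * g + 2)) D

/-- the quadratic form of a matrix -/
def qf {N : ℕ} (A : Matrix (Fin N) (Fin N) D) (y : Fin N → D) : D := y ⬝ᵥ (A *ᵥ y)

/-- the pencils over `D` with discriminant `m ^ 2 z F(x, z)` -/
structure IsPencil (g : ℕ) (f : D[X]) (m : D) (A B : Mat g D) : Prop where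
  symA : A.IsSymm
  symB : B.IsSymm
  disc : ∀ x z : D, (-1) ^ (g + 1) * (x • A - z • B).det = m ^ 2 * (z * form g f x z)

/-- the linear subspace `y_g = ... = y_(2 g + 1) = 0` of dimension `g - 1` is contained in the base locus -/
def ContainsPlane {g : ℕ} (A B : Mat g D) : Prop :=
  ∀ y : Fin (2 * g + 2) → D, (∀ i : Fin (2 * g + 2), g ≤ (i : ℕ) → y i = 0) →
    qf A y = 0 ∧ qf B y = 0

end pencils

section fields

variable {E : Type} [Field E]

/-- the quadratic forms of `A` and `B` are zero at `y` -/
def OnX {N : ℕ} (A B : Matrix (Fin N) (Fin N) E) (y : Fin N → E) : Prop := qf A y = 0 ∧ qf B y = 0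

/-- the base locus `X` of the pencil is smooth (Jacobian criterion at the points over `E`) -/
def Smooth {N : ℕ} (A B : Matrix (Fin N) (Fin N) E) : Prop :=
  ∀ y : Fin N → E, y ≠ 0 → OnX A B y → LinearIndependent E ![A *ᵥ y, B *ᵥ y]

/-- the number of the points over `E` of the base locus `X` of the pencil -/
noncomputable def numP {N : ℕ} (A B : Matrix (Fin N) (Fin N) E) : ℕ :=
  Nat.card {P : ℙ E (Fin N → E) // OnX A B P.rep}

/-- the number of the points over `E` of the affine curve `y ^ 2 = F(x)` -/
noncomputable def numC (F : E[X]) : ℕ := Nat.card {P : E × E // P.2 ^ 2 = F.eval P.1}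

/-- The number of points of `X` over the finite field `E`: `H ^ (2 g - 1) (X) = H ^ 1 (C) (1 - g)` where `C`
is the curve `y ^ 2 = F(x)`, and the other cohomology is that of a projective space of dimension
`2 g - 1`. -/
def PointCount {g : ℕ} (F : E[X]) (A B : Mat g E) : Prop :=
  (numP A B : ℤ) = ∑ i ∈ range (2 * g), (Nat.card E : ℤ) ^ i +
    (Nat.card E : ℤ) ^ (g - 1) * ((numC F : ℤ) - Nat.card E)

end fields

/-- For all pencils over `k[t]` with discriminant `m ^ 2 z F(x, z)` the base locus is smooth over all the
fields `E` over `k[t]` in which `m` is not zero and `f` is separable, and its number of points is given by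
`PointCount` if `E` is finite. -/
def AllPencils {k : Type} [Field k] (g : ℕ) (f : k[X][X]) : Prop :=
  ∀ (m : k[X]) (A B : Mat g k[X]), IsPencil g f m A B →
    ∀ (E : Type) [Field E] (φ : k[X] →+* E), φ m ≠ 0 → (f.map φ).Separable →
      Smooth (A.map φ) (B.map φ) ∧ (Finite E → PointCount (f.map φ) (A.map φ) (B.map φ))

/-- **Theorem.** For every `g ≥ 1`, every finite field `k` of characteristic larger than `2 g + 1` and every
finite Galois extension `M` of `K = k(t)` of degree `2 ^ n` there is a positive constant `c` such that for all
large `N` at least `c` times the number of all the `f` of height at most `N` are irreducible and the Jacobian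
`J` of `y ^ 2 = f` is such that multiplication by two is bijective on `J(M)` and the 2-primary part of the
Tate-Shafarevich group of `J` over `M` is zero (`R` is the integral closure of `k[t]` in `M`). For all
pencils of quadrics with discriminant `m ^ 2 z F(x, z)` the base locus is smooth over all the fields `E` over
`k[t]` in which `m` is not zero and `f` is separable, and its number of points is computed if `E` is finite.
For every `f` there is a pencil with `m = 1` whose base locus contains a linear subspace of dimension
`g - 1`. -/
theorem result (g : ℕ) (hg : 1 ≤ g) (k : Type) [Field k] [Finite k]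
    (hp : ((2 * g + 1).factorial : k) ≠ 0) :
    (∀ (K : Type) [Field K] [Algebra k[X] K] [IsFractionRing k[X] K] (M : Type) [Field M]
      [Algebra K M] [Algebra k[X] M] [IsScalarTower k[X] K M] [FiniteDimensional K M]
      [IsGalois K M] (n : ℕ), Module.finrank K M = 2 ^ n →
      ∀ (R : Type) [CommRing R] [IsDedekindDomain R] [Algebra R M] [IsFractionRing R M]
      [Algebra k[X] R] [IsScalarTower k[X] R M] [IsIntegralClosure R k[X] M],
      PositiveProportion R M k K g) ∧
    (∀ f : k[X][X], f.Monic → f.natDegree = 2 * g + 1 →
      AllPencils g f ∧ ∃ A B : Mat g k[X], IsPencil g f 1 A B ∧ ContainsPlane A B) := by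
  have h2 : (2 : k) ≠ 0 := by
    intro h0
    apply hp
    have hd : 2 ∣ (2 * g + 1).factorial := Nat.dvd_factorial (by norm_num) (by omega)
    obtain ⟨e, he⟩ := hd
    rw [he, Nat.cast_mul, Nat.cast_ofNat, h0, zero_mul]
  refine ⟨?_, ?_⟩
  · intro K _ _ _ M _ _ _ _ _ _ n hn R _ _ _ _ _ _ _
    have hsub : ∀ N, Polys k K g N ⊆ {f : k[X][X] | Pool.Agent.N352.PJ.Ht g N f} :=
      fun N f hf => ⟨hf.monic, hf.degree, hf.trace, hf.height⟩
    have hfin : ∀ N, (Polys k K g N).Finite := fun N =>
      (Pool.Agent.N415.PJMAIN.ht_card (k := k) g N).1.subset (hsub N)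
    refine ⟨hfin, ?_⟩
    obtain ⟨c, hc, N₀, hN₀⟩ := Pool.Agent.N874.JM.final k hg hp K M R hn
    refine ⟨c, hc, ?_⟩
    filter_upwards [eventually_ge_atTop N₀] with N hN
    obtain ⟨hHt, hle⟩ := hN₀ N hN
    have hsub2 : {f : k[X][X] | Pool.Agent.N352.PJ.Ht g N f ∧ Pool.Agent.N352.PJ.Mini g f ∧
        (f.map (algebraMap k[X] K)).Separable ∧ Irreducible (f.map (algebraMap k[X] K)) ∧
        Pool.Agent.N874.JM.SelF R (f.map (algebraMap k[X] M))} ⊆ Good R M k K g N :=
      fun f hf => by
        obtain ⟨h4, h5⟩ := Pool.Agent.N874.JM.genuine K M R hn h2 hf.1.mon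
          (by rw [hf.1.deg]; exact odd_two_mul_add_one g) hf.2.2.1 hf.2.2.2.1 hf.2.2.2.2
        exact ⟨⟨hf.1.mon, hf.1.deg, hf.1.tr, hf.1.ht, hf.2.2.1, hf.2.1⟩, hf.2.2.2.1,
          Pool.Agent.N874.Jac.div_of _ h4, Pool.Agent.N874.Jac.sha_of _ R h5⟩
    have hfin2 : (Good R M k K g N).Finite := (hfin N).subset fun f hf => hf.1
    have h1 := Set.ncard_le_ncard hsub2 hfin2
    have h2 : c * ({f : k[X][X] | Pool.Agent.N352.PJ.Ht g N f}.ncard : ℝ) ≤
        ((Good R M k K g N).ncard : ℝ) := hle.trans (by exact_mod_cast h1)
    have hne : 0 < {f : k[X][X] | Pool.Agent.N352.PJ.Ht g N f}.ncard := by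
      rw [Set.ncard_pos hHt]
      refine ⟨X ^ (2 * g + 1), monic_X_pow _, natDegree_X_pow _, ?_, fun j hj => ?_⟩
      · rw [coeff_X_pow, if_neg (by omega)]
      · rw [coeff_X_pow, if_neg (by omega), natDegree_zero]
        exact Nat.zero_le _
    have h3 : 0 < ((Good R M k K g N).ncard : ℝ) := by
      refine lt_of_lt_of_le ?_ h2
      exact mul_pos hc (by exact_mod_cast hne)
    refine ⟨?_, ?_⟩
    · have h4 := Set.ncard_le_ncard (s := Good R M k K g N) (t := Polys k K g N)
        (fun f hf => hf.1) (hfin N)
      have h5 : 0 < (Good R M k K g N).ncard := by exact_mod_cast h3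
      omega
    · refine le_trans ?_ h2
      have h4 := Set.ncard_le_ncard (hsub N) hHt
      exact mul_le_mul_of_nonneg_left (by exact_mod_cast h4) hc.le
  · intro f hf hd
    refine ⟨fun m A B h E _ φ hm hs => ?_, ?_⟩
    · have hE : (2 : E) ≠ 0 := by
        have h3 : (φ.comp C) 2 ≠ 0 := by
          rw [Ne, map_eq_zero_iff _ (φ.comp C).injective]
          exact h2
        rwa [map_ofNat] at h3
      have h' : Pool.Agent.N844.QR.IsPen g f m A B := ⟨h.symA, h.symB, h.disc⟩
      exact ⟨fun y hy h6 => h'.smooth φ hf hd hm hs hy h6.1 h6.2,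
        fun _ => h'.num hg hf hd E φ hE hm hs⟩
    · have h' := Pool.Agent.N844.QR.ex_pen hf hd
      refine ⟨Pool.Agent.N844.QR.eA hf hd, Pool.Agent.N844.QR.eB hf hd,
        ⟨h'.symA, h'.symB, h'.disc⟩, fun y hy => ?_⟩
      have key : ∀ A : Mat g k[X],
          (∀ i j : Fin (2 * g + 2), (i : ℕ) < g → (j : ℕ) < g → A i j = 0) → qf A y = 0 := by
        intro A hA
        unfold qf
        simp only [dotProduct, mulVec]
        refine Finset.sum_eq_zero fun i _ => ?_
        rcases Nat.lt_or_ge (i : ℕ) g with hi | hi
        · rw [Finset.sum_eq_zero, mul_zero]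
          intro j _
          rcases Nat.lt_or_ge (j : ℕ) g with hj | hj
          · rw [hA i j hi hj, zero_mul]
          · rw [hy j hj, mul_zero]
        · rw [hy i hi, zero_mul]
      exact ⟨key _ fun i j hi hj => (Pool.Agent.N844.QR.e_zero hf hd i j hi hj).1,
        key _ fun i j hi hj => (Pool.Agent.N844.QR.e_zero hf hd i j hi hj).2⟩

end Pool.Agent.Results.MP_3af9db_ag.QuadricPencilFibrations
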